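import Mathlib

/-!
# Exploration with uniform edge weight estimates: ratio `(1 + α) / 2` is not always possible

A graph with eight vertices on which no online algorithm is better than
`7 α / (3 α + 4)`-competitive, for all `1 < α < 8 / 7`; this is larger than `(1 + α) / 2`.
-/

set_option autoImplicit false

namespace Pool.Agent.Results.MP_3f3880_lc.NotHalfCompetitive

variable {V : Type}

/-- The cost of a walk, given by the list of its vertices: the sum of the weights of the edges
traversed, counted with multiplicity. -/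
def cost (w : V → V → ℝ) : List V → ℝ
  | [] => 0
  | [_] => 0
  | a :: b :: l => w a b + cost w (b :: l)

/-- `p` is the list of the vertices of a walk in `G` from `s` to `t` which visits every vertex. -/
def IsTour (G : SimpleGraph V) (s t : V) (p : List V) : Prop :=
  p.IsChain G.Adj ∧ p.head? = some s ∧ p.getLast? = some t ∧ ∀ v, v ∈ p

/-- Admissible edge weights: symmetric, and in the interval `[1, α]` on all edges. -/
def Admissible (G : SimpleGraph V) (α : ℝ) (w : V → V → ℝ) : Prop :=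
  (∀ u v, w u v = w v u) ∧ ∀ u v, G.Adj u v → 1 ≤ w u v ∧ w u v ≤ α

/-- A deterministic online algorithm for the instance `(G, s, t)` with announced weights in
`[1, α]`: it performs a tour `walk w` for all admissible weights `w`, and its next step depends only
on the weights of the edges at the vertices visited so far. -/
structure OnlineAlgorithm (G : SimpleGraph V) (s t : V) (α : ℝ) where
  /-- the walk performed if the weights are `w` -/
  walk : (V → V → ℝ) → List V
  tour : ∀ w, Admissible G α w → IsTour G s t (walk w)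
  online : ∀ w w', Admissible G α w → Admissible G α w' → ∀ k : ℕ,
    (∀ u ∈ (walk w).take (k + 1), ∀ v, G.Adj u v → w u v = w' u v) →
      (walk w').take (k + 2) = (walk w).take (k + 2)

/-- The algorithm is `c`-competitive: its cost is at most `c` times the cost of every tour. -/
def OnlineAlgorithm.Competitive {G : SimpleGraph V} {s t : V} {α : ℝ}
    (A : OnlineAlgorithm G s t α) (c : ℝ) : Prop :=
  ∀ w, Admissible G α w → ∀ q, IsTour G s t q → cost w (A.walk w) ≤ c * cost w q

/-- The edges of the graph. -/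
def edges : List (Fin 8 × Fin 8) :=
  [(0, 1), (0, 4), (1, 2), (1, 3), (1, 4), (1, 6), (2, 3), (2, 6), (3, 5), (3, 6), (4, 5), (4, 7),
    (5, 6), (5, 7)]

/-- The graph. -/
def G₀ : SimpleGraph (Fin 8) where
  Adj a b := (a, b) ∈ edges ∨ (b, a) ∈ edges
  symm := ⟨fun _ _ h => h.symm⟩
  loopless := ⟨by decide⟩

instance : DecidableRel G₀.Adj := fun a b =>
  inferInstanceAs (Decidable ((a, b) ∈ edges ∨ (b, a) ∈ edges))

/-- The Hamiltonian paths from `0` to `7`. -/
def P : Fin 8 → List (Fin 8)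
  | 0 => [0, 1, 2, 3, 6, 5, 4, 7]
  | 1 => [0, 1, 2, 6, 3, 5, 4, 7]
  | 2 => [0, 1, 3, 2, 6, 5, 4, 7]
  | 3 => [0, 1, 6, 2, 3, 5, 4, 7]
  | 4 => [0, 4, 1, 2, 3, 6, 5, 7]
  | 5 => [0, 4, 1, 2, 6, 3, 5, 7]
  | 6 => [0, 4, 1, 3, 2, 6, 5, 7]
  | 7 => [0, 4, 1, 6, 2, 3, 5, 7]

/-- The heavy edges, if the algorithm follows the path `P i`. -/
def X : Fin 8 → List (Fin 8 × Fin 8)
  | 0 => [(0, 1), (0, 4), (1, 2), (1, 3), (1, 6), (3, 6), (4, 5), (4, 7), (5, 6)]
  | 1 => [(0, 1), (0, 4), (1, 2), (1, 3), (1, 6), (3, 5), (3, 6), (4, 5), (4, 7)]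
  | 2 => [(0, 1), (0, 4), (1, 2), (1, 3), (1, 6), (2, 3), (2, 6), (4, 5), (4, 7), (5, 6)]
  | 3 => [(0, 1), (0, 4), (1, 2), (1, 3), (1, 6), (2, 3), (2, 6), (3, 5), (4, 5), (4, 7)]
  | 4 => [(0, 1), (0, 4), (1, 2), (1, 3), (1, 4), (1, 6), (3, 6), (5, 6), (5, 7)]
  | 5 => [(0, 1), (0, 4), (1, 2), (1, 3), (1, 4), (1, 6), (3, 5), (3, 6), (5, 7)]
  | 6 => [(0, 1), (0, 4), (1, 2), (1, 3), (1, 4), (1, 6), (2, 3), (2, 6), (5, 6), (5, 7)]
  | 7 => [(0, 1), (0, 4), (1, 2), (1, 3), (1, 4), (1, 6), (2, 3), (2, 6), (3, 5), (5, 7)]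

/-- The best path for the weights of index `i`. -/
def Q : Fin 8 → Fin 8
  | 0 => 7
  | 1 => 6
  | 2 => 5
  | 3 => 4
  | 4 => 3
  | 5 => 2
  | 6 => 1
  | 7 => 0

/-- Is the edge heavy? -/
def heavy (i a b : Fin 8) : Bool := decide ((a, b) ∈ X i) || decide ((b, a) ∈ X i)

/-- The number of heavy edges of a walk. -/
def hv (i : Fin 8) : List (Fin 8) → ℕ
  | [] => 0
  | [_] => 0
  | a :: b :: l => (heavy i a b).toNat + hv i (b :: l)

/-- The weights. -/
noncomputable def wt (α : ℝ) (i a b : Fin 8) : ℝ := if heavy i a b then α else 1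

lemma wt_eq (α : ℝ) (i a b : Fin 8) : wt α i a b = 1 + (α - 1) * ((heavy i a b).toNat : ℝ) := by
  unfold wt
  cases heavy i a b <;> simp

lemma cost_wt (α : ℝ) (i : Fin 8) : ∀ (a : Fin 8) (l : List (Fin 8)),
    cost (wt α i) (a :: l) = l.length + (α - 1) * (hv i (a :: l) : ℝ)
  | a, [] => by simp [cost, hv]
  | a, b :: l => by
    have ih := cost_wt α i b l
    simp only [cost, hv, ih, wt_eq, List.length_cons, Nat.cast_add, Nat.cast_one]
    ring

lemma wt_adm {α : ℝ} (hα : 1 < α) (i : Fin 8) : Admissible G₀ α (wt α i) := by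
  refine ⟨fun u v => ?_, fun u v _ => ?_⟩
  · unfold wt heavy
    rw [Bool.or_comm]
  · unfold wt
    split <;> constructor <;> linarith

lemma length_of_tour {s t : Fin 8} {p : List (Fin 8)} (h : IsTour G₀ s t p)
    (hl : p.length ≤ 8) : p.length = 8 ∧ p.Nodup := by
  have hsub : (Finset.univ : Finset (Fin 8)) ⊆ p.toFinset := fun v _ => by
    simpa using h.2.2.2 v
  have h1 : 8 ≤ p.toFinset.card := by simpa using Finset.card_le_card hsub
  have h2 := p.toFinset_card_le
  refine ⟨by omega, ?_⟩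
  have h3 : p.toFinset.card = p.length := by omega
  exact (Multiset.toFinset_card_eq_card_iff_nodup (m := (p : Multiset (Fin 8)))).1 h3

/-- A vertex which may come next on a Hamiltonian path from `0` to `7`. -/
def Nx (p : List (Fin 8)) (a b : Fin 8) : Prop := G₀.Adj a b ∧ b ∉ p ∧ b ≠ 7

instance (p : List (Fin 8)) (a b : Fin 8) : Decidable (Nx p a b) :=
  inferInstanceAs (Decidable (_ ∧ _ ∧ _))

lemma ham_aux : ∀ b, Nx [0] 0 b → ∀ c, Nx [0, b] b c → ∀ d, Nx [0, b, c] c d →
    ∀ e, Nx [0, b, c, d] d e → ∀ f, Nx [0, b, c, d, e] e f → ∀ g, Nx [0, b, c, d, e, f] f g →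
    G₀.Adj g 7 → ∃ i, [0, b, c, d, e, f, g, 7] = P i := by
  decide +kernel

lemma tour_mem {p : List (Fin 8)} (h : IsTour G₀ 0 7 p) (hl : p.length ≤ 8) : ∃ i, p = P i := by
  obtain ⟨h8, hn⟩ := length_of_tour h hl
  obtain ⟨hc, hh, ht, -⟩ := h
  match p, h8 with
  | [a, b, c, d, e, f, g, k], _ =>
    simp only [List.head?_cons, Option.some.injEq] at hh
    simp only [List.getLast?_cons_cons, List.getLast?_singleton, Option.some.injEq] at ht
    subst hh ht
    simp only [List.isChain_cons_cons, List.isChain_singleton, and_true] at hc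
    simp only [List.nodup_cons, List.mem_cons, List.not_mem_nil, or_false, not_or,
      not_false_eq_true, List.nodup_nil, and_true] at hn
    obtain ⟨c1, c2, c3, c4, c5, c6, c7⟩ := hc
    obtain ⟨n1, n2, n3, n4, n5, n6, n7⟩ := hn
    refine ham_aux b ⟨c1, ?_, n2.2.2.2.2.2⟩ c ⟨c2, ?_, n3.2.2.2.2⟩ d ⟨c3, ?_, n4.2.2.2⟩ e
      ⟨c4, ?_, n5.2.2⟩ f ⟨c5, ?_, n6.2⟩ g ⟨c6, ?_, n7⟩ c7
    all_goals
      simp only [List.mem_cons, List.not_mem_nil, or_false, not_or]
    · exact Ne.symm n1.1
    · exact ⟨Ne.symm n1.2.1, Ne.symm n2.1⟩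
    · exact ⟨Ne.symm n1.2.2.1, Ne.symm n2.2.1, Ne.symm n3.1⟩
    · exact ⟨Ne.symm n1.2.2.2.1, Ne.symm n2.2.2.1, Ne.symm n3.2.1, Ne.symm n4.1⟩
    · exact ⟨Ne.symm n1.2.2.2.2.1, Ne.symm n2.2.2.2.1, Ne.symm n3.2.2.1, Ne.symm n4.2.1,
        Ne.symm n5.1⟩
    · exact ⟨Ne.symm n1.2.2.2.2.2.1, Ne.symm n2.2.2.2.2.1, Ne.symm n3.2.2.2.1, Ne.symm n4.2.2.1,
        Ne.symm n5.2.1, Ne.symm n6.1⟩

/-- The weights of index `i` and `j` agree on the edges at the vertices of the common prefix of the
two paths. -/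
lemma agree : ∀ i j : Fin 8, i ≠ j → ∃ k < 7, (P i).take (k + 1) = (P j).take (k + 1) ∧
    (P i).take (k + 2) ≠ (P j).take (k + 2) ∧
    ∀ u ∈ (P i).take (k + 1), ∀ v, G₀.Adj u v → heavy i u v = heavy j u v := by
  decide +kernel

lemma tourP : ∀ i, IsTour G₀ 0 7 (P i) := by
  have h : ∀ i, (P i).IsChain G₀.Adj ∧ (P i).head? = some 0 ∧ (P i).getLast? = some 7 ∧
    ∀ v, v ∈ P i := by decide +kernel
  exact h

lemma hvP : ∀ i, hv i (P i) = hv i (P (Q i)) + 4 ∧ hv i (P (Q i)) ≤ 3 := by
  decide +kernel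

lemma costP (α : ℝ) (i j : Fin 8) : cost (wt α i) (P j) = 7 + (α - 1) * (hv i (P j) : ℝ) := by
  have h : (P j).length = 8 := by revert j; decide
  obtain ⟨a, l, hl⟩ : ∃ a l, P j = a :: l := by
    cases hP : P j with
    | nil => rw [hP] at h; simp at h
    | cons a l => exact ⟨a, l, rfl⟩
  rw [hl, cost_wt]
  rw [hl] at h
  have : l.length = 7 := by simpa using h
  rw [this]
  norm_num

lemma connected : G₀.Connected := by
  have hr : ∀ (l : List (Fin 8)) (a : Fin 8), (a :: l).IsChain G₀.Adj → ∀ v ∈ a :: l,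
      G₀.Reachable a v := by
    intro l
    induction l with
    | nil => intro a _ v hv; simp at hv; subst hv; exact SimpleGraph.Reachable.refl _
    | cons b l ih =>
      intro a hc v hv
      rw [List.isChain_cons_cons] at hc
      rcases List.mem_cons.1 hv with rfl | hv
      · exact SimpleGraph.Reachable.refl _
      · exact hc.1.reachable.trans (ih b hc.2 v hv)
  have h0 : ∀ v, G₀.Reachable 0 v := fun v => by
    obtain ⟨hc, -, -, hm⟩ := tourP 0
    exact hr _ _ hc v (hm v)
  exact ⟨fun u v => (h0 u).symm.trans (h0 v)⟩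

theorem key {α c : ℝ} (hα : 1 < α) (hα' : α < 8 / 7) (hc : c < 7 * α / (3 * α + 4))
    (A : OnlineAlgorithm G₀ 0 7 α) : ¬ A.Competitive c := by
  intro hA
  have hden : 0 < 3 * α + 4 := by linarith
  rw [lt_div_iff₀ hden] at hc
  -- cost of the algorithm
  have hcost : ∀ i, cost (wt α i) (A.walk (wt α i)) ≤ c * (7 + (α - 1) * (hv i (P (Q i)) : ℝ)) := by
    intro i
    rw [← costP]
    exact hA _ (wt_adm hα i) _ (tourP _)
  have hb : ∀ i, cost (wt α i) (A.walk (wt α i)) < 8 := by
    intro i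
    have h3 : (hv i (P (Q i)) : ℝ) ≤ 3 := by exact_mod_cast (hvP i).2
    have h0 : (0 : ℝ) ≤ (hv i (P (Q i)) : ℝ) := Nat.cast_nonneg _
    have h1 := hcost i
    rcases le_or_gt c 0 with hc0 | hc0
    · have : c * (7 + (α - 1) * (hv i (P (Q i)) : ℝ)) ≤ 0 :=
        mul_nonpos_of_nonpos_of_nonneg hc0 (by nlinarith)
      linarith
    · have h4 : 7 + (α - 1) * (hv i (P (Q i)) : ℝ) ≤ 3 * α + 4 := by nlinarith
      have h5 := mul_le_mul_of_nonneg_left h4 hc0.le
      linarith
  have hφ : ∀ i, ∃ j, A.walk (wt α i) = P j := by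
    intro i
    have ht := A.tour _ (wt_adm hα i)
    refine tour_mem ht ?_
    have h1 := hb i
    cases hp : A.walk (wt α i) with
    | nil => simp
    | cons a l =>
      rw [hp, cost_wt] at h1
      have h2 : (0 : ℝ) ≤ (α - 1) * (hv i (a :: l) : ℝ) :=
        mul_nonneg (by linarith) (Nat.cast_nonneg _)
      have h3 : (l.length : ℝ) < 8 := by linarith
      have h4 : l.length < 8 := by exact_mod_cast h3
      simp only [List.length_cons]
      omega
  -- there is `i` with `A.walk (wt α i) = P i`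
  have hfix : ∃ i, A.walk (wt α i) = P i := by
    by_contra hno
    push Not at hno
    have hstep : ∀ n : ℕ, ∃ i j, A.walk (wt α i) = P j ∧ (P j).take (n + 1) = (P i).take (n + 1) := by
      intro n
      induction n with
      | zero =>
        obtain ⟨j, hj⟩ := hφ 0
        refine ⟨0, j, hj, ?_⟩
        have h1 : ∀ j, (P j).take (0 + 1) = (P 0).take (0 + 1) := by decide
        exact h1 j
      | succ n ih =>
        obtain ⟨i, j, hij, hn⟩ := ih
        have hne : i ≠ j := fun h => hno i (by rw [hij, h])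
        obtain ⟨k, hk7, hk1, hk2, hk3⟩ := agree i j hne
        have hnk : n ≤ k := by
          by_contra hlt
          push Not at hlt
          apply hk2
          have := congrArg (List.take (k + 2)) hn
          rw [List.take_take, List.take_take, min_eq_left (by omega)] at this
          exact this.symm
        have hon := A.online (wt α i) (wt α j) (wt_adm hα i) (wt_adm hα j) k (by
          intro u hu v hv
          rw [hij, ← hk1] at hu
          unfold wt
          rw [hk3 u hu v hv])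
        obtain ⟨l, hl⟩ := hφ j
        refine ⟨j, l, hl, ?_⟩
        rw [hl, hij] at hon
        have := congrArg (List.take (n + 1 + 1)) hon
        rw [List.take_take, List.take_take, min_eq_left (by omega)] at this
        exact this
    obtain ⟨i, j, hij, hn⟩ := hstep 7
    have hl : ∀ i, (P i).length = 8 := by decide
    rw [List.take_of_length_le (by rw [hl]), List.take_of_length_le (by rw [hl])] at hn
    exact hno i (by rw [hij, hn])
  obtain ⟨i, hi⟩ := hfix
  have h1 := hcost i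
  rw [hi, costP, (hvP i).1] at h1
  have h3 : (hv i (P (Q i)) : ℝ) ≤ 3 := by exact_mod_cast (hvP i).2
  have h0 : (0 : ℝ) ≤ (hv i (P (Q i)) : ℝ) := Nat.cast_nonneg _
  push_cast at h1
  set o := (hv i (P (Q i)) : ℝ) with ho
  have hpos : 0 < 7 + (α - 1) * o := by nlinarith
  have h5 : c * (7 + (α - 1) * o) * (3 * α + 4) < 7 * α * (7 + (α - 1) * o) := by
    have := mul_lt_mul_of_pos_right hc hpos
    linarith
  have h6 : (7 + (α - 1) * (o + 4)) * (3 * α + 4) ≤ c * (7 + (α - 1) * o) * (3 * α + 4) :=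
    mul_le_mul_of_nonneg_right h1 hden.le
  nlinarith [mul_nonneg (mul_nonneg (sub_nonneg.2 hα.le) (sub_nonneg.2 hα.le)) (sub_nonneg.2 h3)]

/-- On the graph `G₀` with eight vertices and fourteen edges no online algorithm has a competitive
ratio below `7 α / (3 α + 4)`, for every `α` between `1` and `8 / 7`. This number is larger than
`(1 + α) / 2`; so it is not true that for every `α ≤ 2` and every graph there is a
`(1 + α) / 2`-competitive online algorithm. -/
theorem result :
    (∃ (G : SimpleGraph (Fin 8)) (s t : Fin 8), G.Connected ∧ s ≠ t ∧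
      ∀ α : ℝ, 1 < α → α < 8 / 7 → (1 + α) / 2 < 7 * α / (3 * α + 4) ∧
        ∀ c < 7 * α / (3 * α + 4), ∀ A : OnlineAlgorithm G s t α, ¬ A.Competitive c) ∧
    ¬ ∀ α : ℝ, 1 ≤ α → α ≤ 2 → ∀ (n : ℕ) (G : SimpleGraph (Fin n)), G.Connected →
      ∀ s t : Fin n, s ≠ t → ∃ A : OnlineAlgorithm G s t α, A.Competitive ((1 + α) / 2) := by
  have hlt : ∀ α : ℝ, 1 < α → α < 8 / 7 → (1 + α) / 2 < 7 * α / (3 * α + 4) := by
    intro α h1 h2
    rw [div_lt_div_iff₀ (by norm_num) (by linarith)]
    nlinarith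
  refine ⟨⟨G₀, 0, 7, connected, by decide, fun α h1 h2 => ⟨hlt α h1 h2, fun c hc A =>
    key h1 h2 hc A⟩⟩, fun h => ?_⟩
  obtain ⟨A, hA⟩ := h (15 / 14) (by norm_num) (by norm_num) 8 G₀ connected 0 7 (by decide)
  exact key (by norm_num) (by norm_num) (hlt _ (by norm_num) (by norm_num)) A hA

end Pool.Agent.Results.MP_3f3880_lc.NotHalfCompetitive
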